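import Pool.Agent.Shared.NP.Defs

namespace Pool.Agent.Lib.MP_698553_lc

/-- The problem is decided by a deterministic Turing machine in polynomial time. -/
def InP {I : Type} (e : I → List Bool) (Y : I → Prop) : Prop :=
  ∃ D : I → Bool, Pool.Agent.Shared.NP.PolyComputable e (fun b : Bool => [b]) D ∧
    ∀ i, Y i ↔ D i = true

end Pool.Agent.Lib.MP_698553_lc
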