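import Pool.Agent.Lib.MP_698553_lc.Defs

/-! A sufficient and a necessary condition for being probe perfect. -/

namespace Pool.Agent.Lib.MP_698553_lc

open SimpleGraph Finset

lemma exists_choice {V C : Type} [Finite V] (R : V → V → Prop) (A : V → C → Prop)
    (hsymm : ∀ p q, R p q → R q p) (hirr : ∀ p, ¬ R p p)
    (huniq : ∀ p q r, R p q → R p r → q = r) (hne : ∀ p, ∃ c, A p c)
    (hpair : ∀ p q, R p q → ∃ c d, A p c ∧ A q d ∧ c ≠ d) :
    ∃ f : V → C, (∀ p, A p (f p)) ∧ ∀ p q, R p q → f p ≠ f q := by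
  classical
  obtain ⟨idx, hidx⟩ := Countable.exists_injective_nat V
  choose f0 hf0 using hne
  choose g1 g2 hg1 hg2 hg using hpair
  let f : V → C := fun p =>
    if h : ∃ q, R p q ∧ idx p < idx q then g1 p h.choose h.choose_spec.1
    else if h : ∃ q, R q p ∧ idx q < idx p then g2 h.choose p h.choose_spec.1 else f0 p
  have key : ∀ p q (h : R p q), idx p < idx q → f p = g1 p q h ∧ f q = g2 p q h := by
    intro p q h hlt
    have h1 : ∃ q, R p q ∧ idx p < idx q := ⟨q, h, hlt⟩
    have h2 : ¬ ∃ r, R q r ∧ idx q < idx r := by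
      rintro ⟨r, hr, hlt'⟩
      obtain rfl := huniq q r p hr (hsymm _ _ h)
      omega
    have h3 : ∃ r, R r q ∧ idx r < idx q := ⟨p, h, hlt⟩
    have e1 : h1.choose = q := huniq p _ _ h1.choose_spec.1 h
    have e3 : h3.choose = p := huniq q _ _ (hsymm _ _ h3.choose_spec.1) (hsymm _ _ h)
    constructor
    · simp only [f, dif_pos h1]; congr
    · simp only [f, dif_neg h2, dif_pos h3]; congr
  refine ⟨f, fun p => ?_, fun p q h => ?_⟩
  · simp only [f]
    split_ifs
    · exact hg1 _ _ _
    · exact hg2 _ _ _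
    · exact hf0 p
  · rcases lt_trichotomy (idx p) (idx q) with hlt | heq | hlt
    · obtain ⟨e1, e2⟩ := key p q h hlt
      rw [e1, e2]; exact hg _ _ _
    · exact absurd (hidx heq ▸ h) (hirr q)
    · obtain ⟨e1, e2⟩ := key q p (hsymm _ _ h) hlt
      rw [e1, e2]; exact (hg _ _ _).symm

/-- a clique plus an induced matching (and isolated vertices) is colourable with `ω` colours -/
lemma colorable_cliqueNum {V : Type} [Finite V] (H : SimpleGraph V) (Q : Set V)
    (hQ : H.IsClique Q)
    (hP : ∀ p q r, p ∉ Q → q ∉ Q → r ∉ Q → H.Adj p q → H.Adj p r → q = r) :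
    H.Colorable H.cliqueNum := by
  classical
  cases nonempty_fintype V
  set w := H.cliqueNum with hw
  let Qf : Finset V := univ.filter (· ∈ Q)
  have hcl : ∀ t : Finset V, H.IsClique (t : Set V) → #t ≤ w := fun t ht => ht.card_le_cliqueNum
  have hQw : Fintype.card Q ≤ Fintype.card (Fin w) := by
    rw [Fintype.card_fin, ← Set.toFinset_card]
    exact hcl _ (by simpa using hQ)
  obtain ⟨col⟩ := Function.Embedding.nonempty_of_card_le hQw
  -- neighbours in the clique and forbidden colours
  let nb : V → Finset Q := fun p => univ.filter fun x : Q => H.Adj p x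
  let Fb : V → Finset (Fin w) := fun p => (nb p).map col
  have hnb : ∀ p, H.IsClique (((nb p).map (Function.Embedding.subtype _) : Finset V) : Set V) := by
    intro p
    refine hQ.subset fun x hx => ?_
    obtain ⟨y, -, rfl⟩ := mem_map.1 (mem_coe.1 hx)
    exact y.2
  have hmem : ∀ p x, x ∈ (nb p).map (Function.Embedding.subtype (· ∈ Q)) → x ∈ Q ∧ H.Adj p x := by
    intro p x hx
    obtain ⟨y, hy, rfl⟩ := mem_map.1 hx
    exact ⟨y.2, (mem_filter.1 hy).2⟩
  have hlt : ∀ p, p ∉ Q → #(Fb p) + 1 ≤ w := by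
    intro p hp
    have h1 : p ∉ (nb p).map (Function.Embedding.subtype (· ∈ Q)) := fun h => hp (hmem _ _ h).1
    have := hcl (insert p ((nb p).map (Function.Embedding.subtype _))) (by
      rw [coe_insert]
      exact (hnb p).insert fun x hx _ => (hmem _ _ hx).2)
    rw [card_insert_of_notMem h1, card_map] at this
    simpa [Fb] using this
  have hex : ∀ p, p ∉ Q → ∃ c, c ∉ Fb p := by
    intro p hp
    by_contra h
    push Not at h
    have := hlt p hp
    rw [eq_univ_iff_forall.2 h, card_univ, Fintype.card_fin] at this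
    omega
  obtain ⟨f, hf1, hf2⟩ := exists_choice (V := {p // p ∉ Q}) (fun p q => H.Adj p q)
    (fun p c => c ∉ Fb p) (fun p q h => h.symm) (fun p => H.irrefl)
    (fun p q r h1 h2 => Subtype.ext (hP _ _ _ p.2 q.2 r.2 h1 h2)) (fun p => hex p p.2) (by
      intro p q hpq
      by_contra hc
      push Not at hc
      obtain ⟨c, hc1⟩ := hex p p.2
      obtain ⟨d, hd1⟩ := hex q q.2
      have e1 : Fb p = univ.erase c := by
        ext x
        simp only [mem_erase, mem_univ, and_true]
        constructor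
        · rintro h rfl; exact hc1 h
        · intro h
          by_contra h'
          exact h ((hc x d h' hd1).trans (hc c d hc1 hd1).symm)
      have e2 : Fb q = univ.erase c := by
        ext x
        simp only [mem_erase, mem_univ, and_true]
        constructor
        · rintro h rfl; exact hd1 (hc x d hc1 hd1 ▸ h)
        · intro h
          by_contra h'
          exact h (hc c x hc1 h').symm
      have e3 : nb p = nb q := map_injective col (e1.trans e2.symm)
      have h1 : (q : V) ∉ (nb p).map (Function.Embedding.subtype (· ∈ Q)) :=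
        fun h => q.2 (hmem _ _ h).1
      have h2 : (p : V) ∉ insert (q : V) ((nb p).map (Function.Embedding.subtype (· ∈ Q))) := by
        rw [mem_insert]
        rintro (h | h)
        · exact hpq.ne h
        · exact p.2 (hmem _ _ h).1
      have := hcl (insert (p : V) (insert (q : V) ((nb p).map (Function.Embedding.subtype _)))) (by
        rw [coe_insert, coe_insert]
        refine ((hnb p).insert fun x hx _ => (hmem _ _ (e3 ▸ hx)).2).insert ?_
        rintro x (rfl | hx) _
        · exact hpq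
        · exact (hmem _ _ hx).2)
      rw [card_insert_of_notMem h2, card_insert_of_notMem h1, card_map] at this
      have h3 : #(Fb p) = #(nb p) := card_map _
      rw [e1, card_erase_of_mem (mem_univ _), card_univ, Fintype.card_fin] at h3
      have := c.2
      omega)
  refine ⟨Coloring.mk (fun v => if h : v ∈ Q then col ⟨v, h⟩ else f ⟨v, h⟩) ?_⟩
  intro u v huv
  by_cases hu : u ∈ Q <;> by_cases hv : v ∈ Q <;> simp only [hu, hv, dif_pos, dif_neg,
    not_false_eq_true]
  · intro h
    exact huv.ne (congrArg Subtype.val (col.injective h))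
  · intro h
    exact hf1 ⟨v, hv⟩ (h ▸ mem_map_of_mem col (mem_filter.2 ⟨mem_univ _, huv.symm⟩))
  · intro h
    exact hf1 ⟨u, hu⟩ (h ▸ mem_map_of_mem col (mem_filter.2 ⟨mem_univ _, huv⟩))
  · exact hf2 ⟨u, hu⟩ ⟨v, hv⟩ huv

lemma probePerfect_of {V : Type} [Finite V] (G : SimpleGraph V) (N : Set V) (hN : G.IsIndepSet N)
    (hP : ∀ p q r, p ∉ N → q ∉ N → r ∉ N → G.Adj p q → G.Adj p r → q = r) :
    IsProbePerfect G := by
  refine ⟨N, hN, SimpleGraph.fromRel fun u v => u ∈ N ∧ v ∈ N, ?_, fun s => ?_⟩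
  · intro u v h
    rcases ((fromRel_adj _ _ _).1 h).2 with h | h
    · exact h
    · exact h.symm
  · refine le_antisymm (Colorable.chromaticNumber_le ?_) cliqueNum_le_chromaticNumber
    refine colorable_cliqueNum _ {v | v.1 ∈ N} ?_ ?_
    · intro u hu v hv huv
      exact Or.inr ((fromRel_adj _ _ _).2 ⟨fun h => huv (Subtype.ext h), Or.inl ⟨hu, hv⟩⟩)
    · intro p q r hp hq hr h1 h2
      have k : ∀ {a b : s}, a.1 ∉ N →
          ((G ⊔ SimpleGraph.fromRel fun u v => u ∈ N ∧ v ∈ N).induce s).Adj a b → G.Adj a b := by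
        intro a b ha h
        rcases h with h | h
        · exact h
        · rcases ((fromRel_adj _ _ _).1 h).2 with h | h
          · exact absurd h.1 ha
          · exact absurd h.2 ha
      exact Subtype.ext (hP _ _ _ hp hq hr (k hp h1) (k hp h2))

/-- `f` is an induced five-cycle -/
def IsC5 {V : Type} (G : SimpleGraph V) (f : Fin 5 → V) : Prop :=
  ∀ i j, G.Adj (f i) (f j) ↔ (j = i + 1 ∨ i = j + 1)

lemma not_perfect_of_C5 {V : Type} [Finite V] {G : SimpleGraph V} {f : Fin 5 → V}
    (hf : IsC5 G f) : ¬ IsPerfect G := by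
  intro h
  have h1 := h (Set.range f)
  have h2 : (G.induce (Set.range f)).cliqueNum ≤ 2 := by
    by_contra hlt
    obtain ⟨t, ht⟩ := (G.induce (Set.range f)).exists_isNClique_cliqueNum
    obtain ⟨⟨_, i, rfl⟩, hi, ⟨_, j, rfl⟩, hj, ⟨_, k, rfl⟩, hk, hij, hik, hjk⟩ :=
      (two_lt_card (s := t)).1 (by rw [ht.card_eq]; omega)
    have a1 := (hf i j).1 (ht.isClique hi hj hij)
    have a2 := (hf i k).1 (ht.isClique hi hk hik)
    have a3 := (hf j k).1 (ht.isClique hj hk hjk)
    revert a1 a2 a3
    revert i j k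
    have : ∀ i j k : Fin 5, (j = i + 1 ∨ i = j + 1) → (k = i + 1 ∨ i = k + 1) →
        (k = j + 1 ∨ j = k + 1) → False := by decide
    intro i _ j _ k _ _ _ _
    exact this i j k
  have h3 : (G.induce (Set.range f)).Colorable 2 := by
    rw [← chromaticNumber_le_iff_colorable, h1]
    exact_mod_cast h2
  obtain ⟨c⟩ := h3
  have h4 : ∀ i, c ⟨f i, i, rfl⟩ ≠ c ⟨f (i + 1), i + 1, rfl⟩ := fun i =>
    c.valid ((hf i (i + 1)).2 (Or.inl rfl))
  have : ∀ g : Fin 5 → Fin 2, ¬ ∀ i, g i ≠ g (i + 1) := by decide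
  exact this (fun i => c ⟨f i, i, rfl⟩) h4

lemma two_mem_of_probePerfect {V : Type} [Finite V] {G : SimpleGraph V} (h : IsProbePerfect G) :
    ∃ N : Set V, G.IsIndepSet N ∧ ∀ f, IsC5 G f → ∃ i j, i ≠ j ∧ f i ∈ N ∧ f j ∈ N := by
  obtain ⟨N, hN, F, hF, hp⟩ := h
  refine ⟨N, hN, fun f hf => ?_⟩
  by_contra hc
  push Not at hc
  refine not_perfect_of_C5 (f := f) (fun i j => ?_) hp
  rw [← hf i j, sup_adj]
  refine ⟨fun h => h.elim id fun h => ?_, Or.inl⟩
  by_cases hij : i = j
  · exact absurd (hij ▸ h) F.irrefl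
  · exact absurd (hF _ _ h).2 (hc i j hij (hF _ _ h).1)

end Pool.Agent.Lib.MP_698553_lc
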