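import Pool.Agent.Shared.PolyTime.Graph
import Pool.Agent.Shared.NP.CookLevin
import Pool.Agent.Lib.MP_698553_lc.Perfect

/-! The reduction from 3-SAT to probe perfect graph recognition. -/

namespace Pool.Agent.Lib.MP_698553_lc

open Pool.Agent.Shared.PolyTime Pool.Agent.Shared.NP
open SimpleGraph hiding adjMatrix

/-- vertex codes: kind, colour, vertex, second vertex -/
abbrev T4 := ℕ × ℕ × ℕ × ℕ

def dec (n x : ℕ) : T4 := (x % 7, x / 7 % 3, x / 7 / 3 % n, x / 7 / 3 / n)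

def cod (n : ℕ) (a : T4) : ℕ := a.1 + 7 * (a.2.1 + 3 * (a.2.2.1 + n * a.2.2.2))

lemma cod_dec (n x : ℕ) : cod n (dec n x) = x := by
  simp only [cod, dec, Nat.mod_add_div]

lemma dec_inj (n : ℕ) : Function.Injective (dec n) := fun x y h => by
  rw [← cod_dec n x, h, cod_dec]

lemma dec_cod {n k c v u : ℕ} (hk : k < 7) (hc : c < 3) (hv : v < n) :
    dec n (cod n (k, c, v, u)) = (k, c, v, u) := by
  have k1 : ∀ B x y : ℕ, x < B → (x + B * y) % B = x := fun B x y hx => by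
    rw [Nat.add_mul_mod_self_left, Nat.mod_eq_of_lt hx]
  have k2 : ∀ B x y : ℕ, x < B → (x + B * y) / B = y := fun B x y hx => by
    rw [Nat.add_mul_div_left _ _ (by omega), Nat.div_eq_of_lt hx, Nat.zero_add]
  simp only [cod, dec]
  rw [k1 _ _ _ hk, k2 _ _ _ hk, k1 _ _ _ hc, k2 _ _ _ hc, k1 _ _ _ hv, k2 _ _ _ hv]

lemma cod_lt {n k c v u : ℕ} (hk : k < 7) (hc : c < 3) (hv : v < n) (hu : u < 3 * n) :
    cod n (k, c, v, u) < 21 * (n * (3 * n)) := by
  have : n * (u + 1) ≤ n * (3 * n) := Nat.mul_le_mul_left n hu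
  simp only [cod]
  rw [Nat.mul_add] at this
  omega

/-- the literal at position `c` of clause `v` -/
def lit (φ : CNF3) (v c : ℕ) : Lit :=
  cond (c == 0) (φ.getD v ((true, 0), (true, 0), (true, 0))).1
    (cond (c == 1) (φ.getD v ((true, 0), (true, 0), (true, 0))).2.1
      (φ.getD v ((true, 0), (true, 0), (true, 0))).2.2)

/-- complementary literals -/
def conf (φ : CNF3) (v c v' c' : ℕ) : Bool :=
  (lit φ v c).2 == (lit φ v' c').2 && !((lit φ v c).1 == (lit φ v' c').1)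

/-- the directed adjacency relation of the gadget graph -/
def relB (φ : CNF3) (a b : T4) : Bool :=
  (Nat.blt a.1 3 && b.1 == a.1 + 1 && b.2.1 == a.2.1 && a.2.2.2 == 3 * a.2.2.1 &&
    b.2.2.1 == a.2.2.1 && b.2.2.2 == 3 * a.2.2.1) ||
  (a.1 == 4 && (b.1 == 0 || b.1 == 3) && b.2.1 == a.2.1 &&
    b.2.2.1 == a.2.2.1 && b.2.2.2 == 3 * a.2.2.1) ||
  (a.1 == 4 && b.1 == 4 && b.2.1 == a.2.1 + 1 && a.2.2.2 == 3 * a.2.2.1 &&
    b.2.2.1 == a.2.2.1 && b.2.2.2 == 3 * a.2.2.1) ||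
  (a.1 == 4 && b.1 == 5 && a.2.1 == 2 && b.2.1 == 0 && a.2.2.2 == 3 * a.2.2.1 &&
    b.2.2.1 == a.2.2.1 && b.2.2.2 == 3 * a.2.2.1) ||
  (a.1 == 5 && b.1 == 6 && a.2.1 == 0 && b.2.1 == 0 && a.2.2.2 == 3 * a.2.2.1 &&
    b.2.2.1 == a.2.2.1 && b.2.2.2 == 3 * a.2.2.1) ||
  (a.1 == 6 && b.1 == 4 && a.2.1 == 0 && b.2.1 == 0 && a.2.2.2 == 3 * a.2.2.1 &&
    b.2.2.1 == a.2.2.1 && b.2.2.2 == 3 * a.2.2.1) ||
  (a.1 == 4 && b.1 == 4 && a.2.2.2 == 3 * b.2.2.1 + b.2.1 && b.2.2.2 == 3 * a.2.2.1 + a.2.1 &&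
    !(a.2.2.1 == b.2.2.1) && conf φ a.2.2.1 a.2.1 b.2.2.1 b.2.1)

lemma relB_iff (φ : CNF3) (k c v u k' c' v' u' : ℕ) :
    relB φ (k, c, v, u) (k', c', v', u') = true ↔
      (k < 3 ∧ k' = k + 1 ∧ c' = c ∧ u = 3 * v ∧ v' = v ∧ u' = 3 * v) ∨
      (k = 4 ∧ (k' = 0 ∨ k' = 3) ∧ c' = c ∧ v' = v ∧ u' = 3 * v) ∨
      (k = 4 ∧ k' = 4 ∧ c' = c + 1 ∧ u = 3 * v ∧ v' = v ∧ u' = 3 * v) ∨
      (k = 4 ∧ k' = 5 ∧ c = 2 ∧ c' = 0 ∧ u = 3 * v ∧ v' = v ∧ u' = 3 * v) ∨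
      (k = 5 ∧ k' = 6 ∧ c = 0 ∧ c' = 0 ∧ u = 3 * v ∧ v' = v ∧ u' = 3 * v) ∨
      (k = 6 ∧ k' = 4 ∧ c = 0 ∧ c' = 0 ∧ u = 3 * v ∧ v' = v ∧ u' = 3 * v) ∨
      (k = 4 ∧ k' = 4 ∧ u = 3 * v' + c' ∧ u' = 3 * v + c ∧ v ≠ v' ∧ conf φ v c v' c' = true) := by
  simp [relB, Nat.blt_eq, and_assoc, or_assoc]

def adjB (φ : CNF3) (x y : ℕ) : Bool :=
  !(x == y) && (relB φ (dec φ.length x) (dec φ.length y) ||
    relB φ (dec φ.length y) (dec φ.length x))

@[fun_prop] theorem pf_dec {α : Type} [Enc α] {B v : α → ℕ} (hB : PF B) (hv : PF v) :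
    PF (fun a => dec (B a) (v a)) := by
  unfold dec; fun_prop

@[fun_prop] theorem pf_lit {α : Type} [Enc α] {M : α → CNF3}
    {x y : α → ℕ} (hM : PF M) (hx : PF x) (hy : PF y) :
    PF (fun a => lit (M a) (x a) (y a)) := by
  unfold lit; fun_prop

@[fun_prop] theorem pf_conf {α : Type} [Enc α] {M : α → CNF3}
    {x y z w : α → ℕ} (hM : PF M) (hx : PF x) (hy : PF y) (hz : PF z) (hw : PF w) :
    PF (fun a => conf (M a) (x a) (y a) (z a) (w a)) := by
  unfold conf; fun_prop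

@[fun_prop] theorem pf_relB {α : Type} [Enc α] {M : α → CNF3}
    {x y : α → T4} (hM : PF M) (hx : PF x) (hy : PF y) :
    PF (fun a => relB (M a) (x a) (y a)) := by
  unfold relB; fun_prop

@[fun_prop] theorem pf_adjB {α : Type} [Enc α] {x y : α → ℕ} {M : α → CNF3}
    (hM : PF M) (hx : PF x) (hy : PF y) :
    PF (fun a => adjB (M a) (x a) (y a)) := by
  unfold adjB; fun_prop

def redData (φ : CNF3) : List (List Bool) :=
  (List.range (21 * (φ.length * (3 * φ.length)))).map fun i =>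
    (List.range (21 * (φ.length * (3 * φ.length)))).map fun j => adjB φ i j

theorem pf_redData : PF redData := by
  unfold redData; fun_prop

/-- The reduction. -/
def reduce (φ : CNF3) : GraphInst where
  n := 21 * (φ.length * (3 * φ.length))
  graph := SimpleGraph.fromRel fun i j => relB φ (dec φ.length i) (dec φ.length j) = true

theorem reduce_code (φ : CNF3) : (reduce φ).code = Enc.enc (redData φ) := by
  have h1 := adjMatrix_eq (reduce φ).graph (adjB φ) fun i j => by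
    unfold reduce adjB
    rw [SimpleGraph.fromRel_adj]
    simp only [Bool.and_eq_true, Bool.or_eq_true, Bool.not_eq_true', beq_eq_false_iff_ne,
      ne_eq, Fin.val_inj]
  rw [GraphInst.code, encGraph_eq, h1, redData]
  rfl

/-- the non-probes attached to a choice of one literal per clause -/
def InN (χ : ℕ → ℕ) (a : T4) : Prop :=
  (a.1 = 4 ∧ a.2.1 = χ a.2.2.1) ∨ (a.2.2.2 = 3 * a.2.2.1 ∧
    ((a.1 = 1 ∧ a.2.1 = χ a.2.2.1) ∨ ((a.1 = 0 ∨ a.1 = 3) ∧ a.2.1 ≠ χ a.2.2.1) ∨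
      (a.2.1 = 0 ∧ a.1 = 5 ∧ χ a.2.2.1 ≠ 2) ∨ (a.2.1 = 0 ∧ a.1 = 6 ∧ χ a.2.2.1 = 2)))

/-- the only possible probe neighbour of a probe -/
def partner (χ : ℕ → ℕ) (a : T4) : T4 :=
  if a.1 = 4 then
    (if a.2.2.2 = 3 * a.2.2.1 then
      (if a.2.1 = 0 then (if χ a.2.2.1 = 1 then (6, 0, a.2.2.1, 3 * a.2.2.1)
        else (4, 1, a.2.2.1, 3 * a.2.2.1))
      else if a.2.1 = 1 then (4, 2 - χ a.2.2.1, a.2.2.1, 3 * a.2.2.1)
        else (4, 1, a.2.2.1, 3 * a.2.2.1))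
    else (4, a.2.2.2 % 3, a.2.2.2 / 3, 3 * a.2.2.1 + a.2.1))
  else if a.1 = 6 then (4, 0, a.2.2.1, 3 * a.2.2.1)
  else if a.1 = 2 then (if a.2.1 = χ a.2.2.1 then (3, a.2.1, a.2.2.1, 3 * a.2.2.1)
    else (1, a.2.1, a.2.2.1, 3 * a.2.2.1))
  else (2, a.2.1, a.2.2.1, 3 * a.2.2.1)

lemma indep_aux {φ : CNF3} {χ : ℕ → ℕ} {a b : T4}
    (hE : conf φ a.2.2.1 (χ a.2.2.1) b.2.2.1 (χ b.2.2.1) ≠ true) (h : relB φ a b = true)
    (ha : InN χ a) (hb : InN χ b) : False := by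
  obtain ⟨k, c, v, u⟩ := a
  obtain ⟨k', c', v', u'⟩ := b
  simp only [InN] at ha hb hE
  rcases (relB_iff ..).1 h with ⟨h1, rfl, rfl, rfl, rfl, rfl⟩ | ⟨rfl, h1, rfl, rfl, rfl⟩ |
    ⟨rfl, rfl, rfl, rfl, rfl, rfl⟩ | ⟨rfl, rfl, rfl, rfl, rfl, rfl, rfl⟩ |
    ⟨rfl, rfl, rfl, rfl, rfl, rfl, rfl⟩ | ⟨rfl, rfl, rfl, rfl, rfl, rfl, rfl⟩ |
    ⟨rfl, rfl, rfl, rfl, h0, h1⟩
  any_goals omega
  have e1 : c = χ v := by omega
  have e2 : c' = χ v' := by omega
  exact hE (e1 ▸ e2 ▸ h1)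

lemma partner_aux {φ : CNF3} {χ : ℕ → ℕ} (h3 : ∀ v, χ v < 3)
    {a b : T4} (hca : a.2.1 < 3) (hcb : b.2.1 < 3)
    (h : relB φ a b = true ∨ relB φ b a = true)
    (ha : ¬ InN χ a) (hb : ¬ InN χ b) : b = partner χ a := by
  obtain ⟨k, c, v, u⟩ := a
  obtain ⟨k', c', v', u'⟩ := b
  have hv := h3 v
  simp only at hca hcb
  rcases h with h | h
  · rcases (relB_iff ..).1 h with ⟨h1, rfl, rfl, rfl, rfl, rfl⟩ | ⟨rfl, h1, rfl, rfl, rfl⟩ |
      ⟨rfl, rfl, rfl, rfl, rfl, rfl⟩ | ⟨rfl, rfl, rfl, rfl, rfl, rfl, rfl⟩ |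
      ⟨rfl, rfl, rfl, rfl, rfl, rfl, rfl⟩ | ⟨rfl, rfl, rfl, rfl, rfl, rfl, rfl⟩ |
      ⟨rfl, rfl, rfl, rfl, hne, -⟩
    · interval_cases k <;> simp_all [InN, partner]
    · rcases h1 with rfl | rfl <;> simp_all [InN]
    · simp only [InN, partner, true_and] at ha hb ⊢
      have : c = 0 ∨ c = 1 := by omega
      rcases this with rfl | rfl
      · rw [if_pos trivial, if_pos trivial, if_pos rfl, if_neg (by omega)]
      · rw [if_pos trivial, if_pos trivial, if_neg (by omega), if_pos rfl]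
        simp only [Prod.mk.injEq, true_and, and_true]; omega
    · simp_all [InN]
    · simp_all [InN]
    · simp [partner]
    · simp only [partner]
      rw [if_pos trivial, if_neg (by omega)]
      simp only [Prod.mk.injEq, true_and, and_true]; omega
  · rcases (relB_iff ..).1 h with ⟨h1, rfl, rfl, rfl, rfl, rfl⟩ | ⟨rfl, h1, rfl, rfl, rfl⟩ |
      ⟨rfl, rfl, rfl, rfl, rfl, rfl⟩ | ⟨rfl, rfl, rfl, rfl, rfl, rfl, rfl⟩ |
      ⟨rfl, rfl, rfl, rfl, rfl, rfl, rfl⟩ | ⟨rfl, rfl, rfl, rfl, rfl, rfl, rfl⟩ |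
      ⟨rfl, rfl, rfl, rfl, hne, -⟩
    · interval_cases k' <;> simp_all [InN, partner]
    · rcases h1 with rfl | rfl <;> simp_all [InN]
    · simp only [InN, partner, true_and] at ha hb ⊢
      have : c' = 0 ∨ c' = 1 := by omega
      rcases this with rfl | rfl
      · rw [if_pos trivial, if_pos trivial, if_neg (by omega), if_pos rfl]
        simp only [Prod.mk.injEq, true_and, and_true]; omega
      · rw [if_pos trivial, if_pos trivial, if_neg (by omega), if_neg (by omega)]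
    · simp_all [InN]
    · simp_all [InN]
    · simp only [InN, partner, true_and] at ha hb ⊢
      rw [if_pos trivial, if_pos trivial, if_pos trivial, if_pos (by omega)]
    · simp only [partner]
      rw [if_pos trivial, if_neg (by omega)]
      simp only [Prod.mk.injEq, true_and, and_true]; omega

lemma sat_iff (φ : CNF3) : Sat3 φ ↔ ∃ asg : ℕ → Bool, ∀ v < φ.length, ∃ c < 3,
    asg (lit φ v c).2 = (lit φ v c).1 := by
  refine exists_congr fun asg => ⟨fun h v hv => ?_, fun h cl hcl => ?_⟩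
  · rcases h φ[v] (List.getElem_mem hv) with h | h | h
    · exact ⟨0, by omega, by simpa [lit, hv] using h⟩
    · exact ⟨1, by omega, by simpa [lit, hv] using h⟩
    · exact ⟨2, by omega, by simpa [lit, hv] using h⟩
  · obtain ⟨v, hv, rfl⟩ := List.getElem_of_mem hcl
    obtain ⟨c, hc, h⟩ := h v hv
    interval_cases c
    · exact Or.inl (by simpa [lit, hv] using h)
    · exact Or.inr (Or.inl (by simpa [lit, hv] using h))
    · exact Or.inr (Or.inr (by simpa [lit, hv] using h))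

theorem probe_of_sat (φ : CNF3) (h : Sat3 φ) : IsProbePerfect (reduce φ).graph := by
  obtain ⟨asg, h⟩ := (sat_iff φ).1 h
  choose! χ0 hχ3 hχ using h
  let χ : ℕ → ℕ := fun v => if v < φ.length then χ0 v else 0
  have h3 : ∀ v, χ v < 3 := by
    intro v
    simp only [χ]
    split_ifs with h
    · exact hχ3 v h
    · omega
  have hE : ∀ v u, v < φ.length → u < φ.length → conf φ v (χ v) u (χ u) ≠ true := by
    intro v u hv hu h
    simp only [χ, if_pos hv, if_pos hu, conf, Bool.and_eq_true, beq_iff_eq, Bool.not_eq_true',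
      beq_eq_false_iff_ne] at h
    exact h.2 (by rw [← hχ v hv, ← hχ u hu, h.1])
  have hlt : ∀ i : Fin (reduce φ).n, (dec φ.length i).2.2.1 < φ.length := by
    intro i
    refine Nat.mod_lt _ (Nat.pos_of_ne_zero fun h0 => ?_)
    have := i.2
    simp [reduce, h0] at this
  refine probePerfect_of _ {i | InN χ (dec φ.length i)} ?_ ?_
  · intro i hi j hj _ hij
    rcases ((fromRel_adj _ _ _).1 hij).2 with h | h
    · exact indep_aux (hE _ _ (hlt i) (hlt j)) h hi hj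
    · exact indep_aux (hE _ _ (hlt j) (hlt i)) h hj hi
  · intro p q r hp hq hr h1 h2
    have hc : ∀ i, (dec φ.length i).2.1 < 3 := fun i => Nat.mod_lt _ (by omega)
    have e1 := partner_aux h3 (hc _) (hc _) ((fromRel_adj _ _ _).1 h1).2 hp hq
    have e2 := partner_aux h3 (hc _) (hc _) ((fromRel_adj _ _ _).1 h2).2 hp hr
    exact Fin.ext (dec_inj _ (e1.trans e2.symm))

/-- the vertex with a given code -/
def vx (φ : CNF3) (k : Fin 7) (c : Fin 3) (v u : Fin φ.length) (d : Fin 3) :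
    Fin (reduce φ).n :=
  ⟨cod φ.length (k, c, v, 3 * u + d), cod_lt k.2 c.2 v.2 (by omega)⟩

lemma vx_adj (φ : CNF3) (k k' : Fin 7) (c c' d d' : Fin 3) (v u v' u' : Fin φ.length) :
    (reduce φ).graph.Adj (vx φ k c v u d) (vx φ k' c' v' u' d') ↔
      (relB φ (k, c, v, 3 * u + d) (k', c', v', 3 * u' + d') = true ∨
        relB φ (k', c', v', 3 * u' + d') (k, c, v, 3 * u + d) = true) := by
  simp only [reduce, fromRel_adj, vx, dec_cod k.2 c.2 v.2, dec_cod k'.2 c'.2 v'.2, ne_eq,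
    Fin.mk.injEq, and_iff_right_iff_imp]
  intro h e
  have e' := congrArg (dec φ.length) e
  rw [dec_cod k.2 c.2 v.2, dec_cod k'.2 c'.2 v'.2] at e'
  rw [← e', or_self, relB_iff] at h
  rcases h with h | h | h | h | h | h | ⟨-, -, -, -, h, -⟩
  all_goals omega

lemma c5_var (φ : CNF3) (c d : Fin 3) (v u : Fin φ.length) : IsC5 (reduce φ).graph
    ![vx φ 0 c v v 0, vx φ 1 c v v 0, vx φ 2 c v v 0, vx φ 3 c v v 0, vx φ 4 c v u d] := by
  intro i j
  fin_cases i <;> fin_cases j <;> simp [vx_adj, relB_iff]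

lemma c5_clause (φ : CNF3) (v : Fin φ.length) : IsC5 (reduce φ).graph
    ![vx φ 4 0 v v 0, vx φ 4 1 v v 0, vx φ 4 2 v v 0, vx φ 5 0 v v 0, vx φ 6 0 v v 0] := by
  intro i j
  fin_cases i <;> fin_cases j <;> simp [vx_adj, relB_iff]

lemma twin_aux {V : Type} {G : SimpleGraph V} {N : Set V} (hN : G.IsIndepSet N)
    {a b c d e e' : V} (h1 : IsC5 G ![a, b, c, d, e]) (h2 : IsC5 G ![a, b, c, d, e'])
    (h : ∃ i j, i ≠ j ∧ ![a, b, c, d, e'] i ∈ N ∧ ![a, b, c, d, e'] j ∈ N) (he : e ∈ N) :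
    e' ∈ N := by
  have ha : a ∉ N := fun ha =>
    have := (h1 0 4).2 (by decide)
    hN ha he this.ne this
  have hd : d ∉ N := fun hd =>
    have := (h1 3 4).2 (by decide)
    hN hd he this.ne this
  have hbc : ¬ (b ∈ N ∧ c ∈ N) := fun h =>
    have := (h2 1 2).2 (by decide)
    hN h.1 h.2 this.ne this
  obtain ⟨i, j, hij, hi, hj⟩ := h
  fin_cases i <;> fin_cases j <;> simp_all

theorem sat_of_probe (φ : CNF3) (h : IsProbePerfect (reduce φ).graph) : Sat3 φ := by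
  classical
  obtain ⟨N, hN, hC⟩ := two_mem_of_probePerfect h
  have h1 : ∀ v, ∃ c, vx φ 4 c v v 0 ∈ N := by
    intro v
    by_contra hc
    push Not at hc
    have hst : ¬ (vx φ 5 0 v v 0 ∈ N ∧ vx φ 6 0 v v 0 ∈ N) := fun h =>
      have := (c5_clause φ v 3 4).2 (by decide)
      hN h.1 h.2 this.ne this
    obtain ⟨i, j, hij, hi, hj⟩ := hC _ (c5_clause φ v)
    fin_cases i <;> fin_cases j <;> simp_all
  choose col hcol using h1
  have h2 : ∀ v u d, vx φ 4 (col v) v u d ∈ N := fun v u d =>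
    twin_aux hN (c5_var φ (col v) 0 v v) (c5_var φ (col v) d v u)
      (hC _ (c5_var φ (col v) d v u)) (hcol v)
  have h3 : ∀ v u : Fin φ.length, v ≠ u → conf φ v (col v) u (col u) ≠ true := by
    intro v u hvu hc
    have hadj : (reduce φ).graph.Adj (vx φ 4 (col v) v u (col u)) (vx φ 4 (col u) u v (col v)) := by
      rw [vx_adj, relB_iff]
      exact Or.inl (Or.inr (Or.inr (Or.inr (Or.inr (Or.inr (Or.inr
        ⟨rfl, rfl, rfl, rfl, fun h => hvu (Fin.ext h), hc⟩))))))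
    exact hN (h2 v u _) (h2 u v _) hadj.ne hadj
  refine (sat_iff φ).2 ⟨fun x => decide (∃ u : Fin φ.length, lit φ u (col u) = (true, x)),
    fun v hv => ⟨col ⟨v, hv⟩, (col _).2, ?_⟩⟩
  cases hb : (lit φ v (col ⟨v, hv⟩)).1
  · rw [decide_eq_false_iff_not]
    rintro ⟨u, hu⟩
    refine h3 ⟨v, hv⟩ u (fun e => ?_) ?_
    · subst e
      rw [hu] at hb
      exact Bool.noConfusion hb
    · simp [conf, hu, hb]
  · rw [decide_eq_true_iff]
    exact ⟨⟨v, hv⟩, Prod.ext hb rfl⟩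

theorem npHard : NPHard GraphInst.code fun x => IsProbePerfect x.graph :=
  npHard_of_sat3 _ _ reduce redData pf_redData reduce_code
    fun φ => ⟨probe_of_sat φ, sat_of_probe φ⟩

end Pool.Agent.Lib.MP_698553_lc
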