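import Pool.Agent.Shared.NP.Sim
import Pool.Agent.Lib.MP_698553_lc.Red
import Pool.Agent.Lib.MP_698553_lc.DefsP

/-! Probe perfect graphs are recognised in polynomial time exactly when P = NP. -/

namespace Pool.Agent.Lib.MP_698553_lc

open Pool.Agent.Shared.PolyTime Pool.Agent.Shared.NP
open SimpleGraph hiding adjMatrix

theorem pf_raw {α : Type} [Enc α] : PF fun a : α => (⟨Enc.enc a⟩ : Raw) :=
  ⟨fun x => x, PT.var 0, fun _ => rfl⟩

theorem InP.pf {I : Type} {e : I → List Bool} {Y : I → Prop} (h : InP e Y) :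
    ∃ D : Raw → Bool, PF D ∧ ∀ i, Y i ↔ D ⟨e i⟩ = true := by
  obtain ⟨D, hD, hY⟩ := h
  obtain ⟨F, hF, e⟩ := hD.pf
  exact ⟨fun w => (F w).headD false, by fun_prop, fun i => by simpa [e] using hY i⟩

theorem ex_pf (H : ∀ L : List Bool → Prop, InNP id L → InP id L) {α : Type} [Enc α]
    (V : α → List Bool → Bool) (hV : PF fun p : α × List Bool => V p.1 p.2) :
    ∃ D : α → Bool, PF D ∧ ∀ a, D a = true ↔ ∃ y : List Bool,
      y.length ≤ (Enc.enc a).length + (Enc.enc a).length * (Enc.enc a).length ∧ V a y = true := by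
  obtain ⟨F, hF, sF⟩ := hV
  have h1 : PF fun p : Raw × List Bool => (⟨F (Enc.enc p)⟩ : Raw) := ⟨F, hF, fun _ => rfl⟩
  obtain ⟨D, hD, hY⟩ := (H _ (inNP_of_pf id _ Raw.mk (fun _ => rfl)
    (fun w y => (F (Enc.enc (w, y))).headD false) (PF.headD (PF_bits h1) (PF.const false))
    (Polynomial.X + Polynomial.X * Polynomial.X) fun _ => Iff.rfl)).pf
  refine ⟨fun a => D ⟨Enc.enc a⟩, hD.comp pf_raw, fun a => (hY (Enc.enc a)).symm.trans
    (exists_congr fun y => and_congr (by simp) ?_)⟩
  rw [show Enc.enc ((⟨Enc.enc a⟩ : Raw), y) = Enc.enc (a, y) from rfl, sF, enc_bool]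
  rfl

theorem exists_cert {n N : ℕ} (h : n ≤ N) (Q : Fin n → Prop) (R : Fin n → Fin n → Prop) :
    ∃ y : List Bool, y.length ≤ N + N * N ∧ (∀ i : Fin n, y.getD i false = true ↔ Q i) ∧
      ∀ i j : Fin n, y.getD (n + i * n + j) false = true ↔ R i j := by
  classical
  refine ⟨(List.range (n + n * n)).map fun k : ℕ => decide ((∃ i : Fin n, k = i ∧ Q i) ∨
    ∃ i j : Fin n, k = n + i * n + j ∧ R i j), ?_, fun i => ?_, fun i j => ?_⟩
  · simpa using Nat.add_le_add h (Nat.mul_le_mul h h)
  · have : (i : ℕ) < n + n * n := by omega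
    simp only [List.getD_eq_getElem?_getD, List.getElem?_map, List.getElem?_range this,
      Option.map_some, Option.getD_some, decide_eq_true_eq, Fin.val_inj, exists_eq_left']
    exact or_iff_left fun ⟨a, b, e, _⟩ => by omega
  · have : n + i * n + j < n + n * n := by
      have := Nat.mul_le_mul_right n i.2
      rw [Nat.succ_mul] at this
      omega
    simp only [List.getD_eq_getElem?_getD, List.getElem?_map, List.getElem?_range this,
      Option.map_some, Option.getD_some, decide_eq_true_eq]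
    refine ⟨fun k => k.elim (fun ⟨a, e, _⟩ => by omega) fun ⟨a, b, e, k⟩ => ?_,
      fun k => Or.inr ⟨i, j, rfl, k⟩⟩
    have e' : finProdFinEquiv (i, j) = finProdFinEquiv (a, b) := Fin.ext (by
      simp only [finProdFinEquiv_apply_val, Nat.mul_comm n]; omega)
    obtain ⟨rfl, rfl⟩ := Prod.mk.inj (finProdFinEquiv.injective e')
    exact k

theorem all_range (n : ℕ) (f : ℕ → Bool) :
    (List.range n).all f = true ↔ ∀ i : Fin n, f i = true := by simp [Fin.forall_iff]

theorem any_range (n : ℕ) (f : ℕ → Bool) :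
    (List.range n).any f = true ↔ ∃ i : Fin n, f i = true := by simp [Fin.exists_iff]

theorem chi_iff {V : Type} [Finite V] (G : SimpleGraph V) (S : Set V) :
    (G.induce S).chromaticNumber = ((G.induce S).cliqueNum : ℕ∞) ↔
      ∃ (Q : V → Prop) (R : V → V → Prop), (∀ i, Q i → i ∈ S) ∧
        (∀ i j, Q i → Q j → i ≠ j → G.Adj i j) ∧ (∀ i ∈ S, ∃ j, Q j ∧ R i j) ∧
        ∀ i i' j, G.Adj i i' → R i j → ¬ R i' j := by
  classical
  refine ⟨fun h => ?_, fun ⟨Q, R, h1, h2, h3, h4⟩ => ?_⟩
  · obtain ⟨t, ht⟩ := (G.induce S).exists_isNClique_cliqueNum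
    obtain ⟨c⟩ := chromaticNumber_le_iff_colorable.1 h.le
    let e := (Finset.equivFinOfCardEq ht.card_eq).symm
    refine ⟨fun i => ∃ k : i ∈ S, ⟨i, k⟩ ∈ t, fun i j => ∃ k : i ∈ S, (e (c ⟨i, k⟩)).1.1 = j,
      fun i k => k.1, fun i j ⟨a, ha⟩ ⟨b, hb⟩ k => ht.isClique (x := ⟨i, a⟩) ha (y := ⟨j, b⟩) hb
        fun e => k (congrArg Subtype.val e),
      fun i k => ⟨_, ⟨_, (e (c ⟨i, k⟩)).2⟩, k, rfl⟩, fun i i' j a ⟨b, hb⟩ ⟨d, hd⟩ => ?_⟩
    exact c.valid (v := ⟨i, b⟩) (w := ⟨i', d⟩) a
      (e.injective (Subtype.ext (Subtype.ext (hb.trans hd.symm))))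
  · cases nonempty_fintype S
    choose c c1 c2 using h3
    let t : Finset S := Finset.univ.filter fun v => Q v
    have h5 : (G.induce S).IsClique (t : Set S) := fun a ha b hb k =>
      h2 _ _ (by simpa [t] using ha) (by simpa [t] using hb) fun e => k (Subtype.ext e)
    have h6 : (G.induce S).Coloring t := Coloring.mk
      (fun v => ⟨⟨c v v.2, h1 _ (c1 _ _)⟩, by simpa [t] using c1 _ _⟩) fun {a b} k e =>
        h4 a b _ k (c2 _ a.2) ((congrArg (·.1.1) e : c a a.2 = c b b.2) ▸ c2 _ b.2)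
    refine le_antisymm (h6.colorable.chromaticNumber_le.trans ?_) cliqueNum_le_chromaticNumber
    exact_mod_cast (Fintype.card_coe t).trans_le h5.card_le_cliqueNum

/-- A clique and a colouring by its vertices. -/
def V1 (a : List (List Bool) × List Bool) (y : List Bool) : Bool :=
  (List.range a.1.length).all (fun i => !(y.getD i false) || a.2.getD i false) &&
  ((List.range a.1.length).all (fun i => (List.range a.1.length).all fun j =>
    !(y.getD i false) || (!(y.getD j false) || (i == j || entry a.1 i j))) &&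
  ((List.range a.1.length).all (fun i => !(a.2.getD i false) || (List.range a.1.length).any fun j =>
    y.getD j false && y.getD (a.1.length + i * a.1.length + j) false) &&
  (List.range a.1.length).all fun i => (List.range a.1.length).all fun i' =>
    (List.range a.1.length).all fun j => !(entry a.1 i i') ||
      (!(y.getD (a.1.length + i * a.1.length + j) false) ||
        !(y.getD (a.1.length + i' * a.1.length + j) false))))

/-- The matrix after adding edges. -/
def mat (M : List (List Bool)) (y : List Bool) : List (List Bool) :=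
  (List.range M.length).map fun i => (List.range M.length).map fun j => entry M i j ||
    (!(i == j) && (y.getD i false && y.getD j false && y.getD (M.length + i * M.length + j) false ||
      y.getD j false && y.getD i false && y.getD (M.length + j * M.length + i) false))

variable {n : ℕ} (G : SimpleGraph (Fin n))

theorem len_adj : (adjMatrix G).length = n := by simp [adjMatrix]

theorem entry_adj (i j : Fin n) : entry (adjMatrix G) i j = true ↔ G.Adj i j := by
  simp [entry_adjMatrix]

theorem V1_iff (s : List Bool) {N : ℕ} (h : n ≤ N) :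
    (∃ y : List Bool, y.length ≤ N + N * N ∧ V1 (adjMatrix G, s) y = true) ↔
      (G.induce {i : Fin n | s.getD i false = true}).chromaticNumber =
        ((G.induce {i : Fin n | s.getD i false = true}).cliqueNum : ℕ∞) := by
  simp only [chi_iff, V1, len_adj, Bool.and_eq_true, all_range, any_range, entry_adj,
    Bool.or_eq_true, beq_iff_eq, Fin.val_inj, Bool.not_eq_true', ← Bool.not_eq_true,
    Set.mem_ofPred_eq, ← or_iff_not_imp_left, ne_eq, ← imp_iff_not_or]
  refine ⟨fun ⟨y, _, k⟩ => ⟨_, _, k⟩, fun ⟨Q, R, k⟩ => ?_⟩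
  obtain ⟨y, h1, h2, h3⟩ := exists_cert h Q R
  exact ⟨y, h1, by simpa only [h2, h3] using k⟩

theorem mat_eq (y : List Bool) : mat (adjMatrix G) y = adjMatrix (G ⊔ fromRel fun i j : Fin n =>
    (y.getD i false = true ∧ y.getD j false = true) ∧ y.getD (n + i * n + j) false = true) := by
  rw [mat, len_adj]
  exact (adjMatrix_eq _ _ fun i j => by simp [entry_adj, Fin.val_inj]).symm

theorem pf_V1 : PF fun p : (List (List Bool) × List Bool) × List Bool => V1 p.1 p.2 := by
  unfold V1; fun_prop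

theorem pf_mat : PF fun p : List (List Bool) × List Bool => mat p.1 p.2 := by
  unfold mat; fun_prop

theorem inP_iff : InP GraphInst.code (fun x => IsProbePerfect x.graph) ↔
    ∀ L : List Bool → Prop, InNP id L → InP id L := by
  refine ⟨fun h L hL => ?_, fun H => ?_⟩
  · obtain ⟨D, hD, hY⟩ := h.pf
    obtain ⟨F, hF, hs⟩ := cookLevin id L hL
    refine ⟨fun x => D ⟨Enc.enc (redData (F ⟨x⟩))⟩, ((hD.comp pf_raw).comp
      (pf_redData.comp hF)).tm2 _ _ _ Raw.mk (fun _ => rfl) fun _ => rfl, fun x => ?_⟩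
    beta_reduce
    rw [← reduce_code, ← hY]
    exact (hs x).trans ⟨probe_of_sat _, sat_of_probe _⟩
  have hn : ∀ {n} (G : SimpleGraph (Fin n)), n ≤ (Enc.enc (adjMatrix G)).length := fun G =>
    (len_adj G).ge.trans (length_le_len _)
  obtain ⟨D1, p1, h1⟩ := ex_pf H V1 pf_V1
  obtain ⟨D2, p2, h2⟩ := ex_pf H (fun M s => !(D1 (M, s))) p1.not'
  have k2 : ∀ {n} (G : SimpleGraph (Fin n)), ¬ D2 (adjMatrix G) = true ↔ IsPerfect G := fun G => by
    simp only [h2, Bool.not_eq_true', ← Bool.not_eq_true, h1]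
    rw [not_exists]
    simp only [not_and, not_not]
    refine ⟨fun k S => ?_, fun k s _ => (V1_iff G s (by have := hn G; simp; omega)).2 (k _)⟩
    obtain ⟨s, s1, s2, -⟩ := exists_cert (hn G) (· ∈ S) fun _ _ => True
    have := (V1_iff G s (by have := hn G; simp; omega)).1 (k s s1)
    rwa [show {i : Fin _ | s.getD i false = true} = S from Set.ext s2] at this
  obtain ⟨D3, p3, h3⟩ := ex_pf H (fun M y => (List.range M.length).all (fun i =>
    (List.range M.length).all fun j => !(y.getD i false) || (!(y.getD j false) || !(entry M i j)))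
      && !(D2 (mat M y))) (PF.and' (by fun_prop) (p2.comp pf_mat).not')
  refine ⟨fun x => D3 (adjMatrix x.graph), p3.tm2 _ _ _ (fun x => adjMatrix x.graph)
    (fun _ => rfl) fun _ => rfl, fun ⟨n, G⟩ => ?_⟩
  simp only [h3, len_adj, Bool.and_eq_true, all_range, Bool.or_eq_true, Bool.not_eq_true',
    ← Bool.not_eq_true, entry_adj, mat_eq, k2, ← imp_iff_not_or]
  refine ⟨fun ⟨N, a1, F, a2, a3⟩ => ?_, fun ⟨y, _, a1, a2⟩ => ⟨{i : Fin n | y.getD i false = true},
    fun i hi j hj _ => a1 i j hi hj, _, fun u v k => ?_, a2⟩⟩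
  · obtain ⟨y, y1, y2, y3⟩ := exists_cert (hn G) (· ∈ N) F.Adj
    refine ⟨y, y1, fun i j hi hj k => a1 ((y2 i).1 hi) ((y2 j).1 hj) k.ne k, ?_⟩
    convert a3 using 2
    ext i j
    simp only [fromRel_adj, y2, y3]
    exact ⟨fun k => k.2.elim (·.2) (·.2.symm), fun k => ⟨k.ne, Or.inl ⟨a2 _ _ k, k⟩⟩⟩
  · exact ((fromRel_adj _ _ _).1 k).2.elim (·.1) (·.1.symm)

end Pool.Agent.Lib.MP_698553_lc
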