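import Mathlib
import Pool.Agent.Shared.PolyTime.GraphEnc

namespace Pool.Agent.Lib.MP_698553_lc

/-- A graph is perfect if chromatic number and clique number agree on every induced subgraph. -/
def IsPerfect {V : Type} (G : SimpleGraph V) : Prop :=
  ∀ s : Set V, (G.induce s).chromaticNumber = ((G.induce s).cliqueNum : ℕ∞)

/-- Probe perfect: for some independent set `N`, adding some edges with both ends in `N` gives a
perfect graph. -/
def IsProbePerfect {V : Type} (G : SimpleGraph V) : Prop :=
  ∃ N : Set V, G.IsIndepSet N ∧
    ∃ F : SimpleGraph V, (∀ u v, F.Adj u v → u ∈ N ∧ v ∈ N) ∧ IsPerfect (G ⊔ F)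

/-- An input graph: a number of vertices and a simple graph on them. -/
structure GraphInst where
  n : ℕ
  graph : SimpleGraph (Fin n)

/-- The bit string of the adjacency matrix. -/
noncomputable def GraphInst.code (x : GraphInst) : List Bool :=
  Pool.Agent.Shared.PolyTime.encGraph x.graph

end Pool.Agent.Lib.MP_698553_lc
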